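import Pool.Agent.Helper50.UK.Lab

/-! A diagram whose colourings are all constant represents the unknot. -/

set_option autoImplicit false

namespace Pool.Agent.Helper50.UK.Code

variable {n : ℕ}

/-- The Wirtinger relation at an over passage. -/
theorem of_over (S : Code n) (D : Fin n → Bool) {q : ZMod (2 * n)} (h : S.isOver D q = true) :
    (PresentedGroup.of q : S.knotGroup D) = PresentedGroup.of (q - 1) := by
  have h1 : (PresentedGroup.mk (S.wirtinger D)
      (FreeGroup.of q * (FreeGroup.of (q - 1))⁻¹)) = 1 := by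
    refine PresentedGroup.one_of_mem ⟨q, ?_⟩
    rw [if_pos h]
  rw [map_mul, map_inv, mul_inv_eq_one] at h1
  exact h1

/-- The Wirtinger relation at an under passage crossed from right to left. -/
theorem of_under_left (S : Code n) (D : Fin n → Bool) {q : ZMod (2 * n)}
    (h : S.isOver D q = false) (hl : S.toLeft q = true) :
    (PresentedGroup.of q : S.knotGroup D) =
      PresentedGroup.of (S.mate q) * PresentedGroup.of (q - 1) *
        (PresentedGroup.of (S.mate q))⁻¹ := by
  have h1 : (PresentedGroup.mk (S.wirtinger D) (FreeGroup.of q *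
      (FreeGroup.of (S.mate q) * FreeGroup.of (q - 1) * (FreeGroup.of (S.mate q))⁻¹)⁻¹)) = 1 := by
    refine PresentedGroup.one_of_mem ⟨q, ?_⟩
    rw [if_neg (by rw [h]; simp), if_pos hl]
  rw [map_mul, map_inv, mul_inv_eq_one, map_mul, map_mul, map_inv] at h1
  exact h1

/-- The Wirtinger relation at an under passage crossed from left to right. -/
theorem of_under_right (S : Code n) (D : Fin n → Bool) {q : ZMod (2 * n)}
    (h : S.isOver D q = false) (hl : S.toLeft q = false) :
    (PresentedGroup.of q : S.knotGroup D) =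
      (PresentedGroup.of (S.mate q))⁻¹ * PresentedGroup.of (q - 1) *
        PresentedGroup.of (S.mate q) := by
  have h1 : (PresentedGroup.mk (S.wirtinger D) (FreeGroup.of q *
      ((FreeGroup.of (S.mate q))⁻¹ * FreeGroup.of (q - 1) * FreeGroup.of (S.mate q))⁻¹)) = 1 := by
    refine PresentedGroup.one_of_mem ⟨q, ?_⟩
    rw [if_neg (by rw [h]; simp), if_neg (by rw [hl]; simp)]
  rw [map_mul, map_inv, mul_inv_eq_one, map_mul, map_mul, map_inv] at h1
  exact h1

theorem isUnknot_of_good [NeZero n] (S : Shadow n) (D : Fin n → Bool)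
    (hJ : ∀ c : ZMod (2 * n) → S.toCode.knotGroup D,
      (∀ q, S.toLeft q = true → c (S.mate q - 1) * c (q - 1) = c q * c (S.mate q)) →
      ∃ r : ZMod (2 * n) × Bool → S.toCode.knotGroup D, S.toCode.IsFace r ∧
        ∀ e, Code.col r e = c e)
    (h : S.toCode.Good ∅ Set.univ (S.toCode.isOver D)) : S.toCode.IsUnknot D := by
  obtain ⟨r, hr, hc⟩ := hJ (fun e => PresentedGroup.of e) (by
    intro q hq
    have hm : S.toLeft (S.mate q) = false := by rw [S.toCode.toLeft_mate, hq]; rfl
    by_cases ho : S.isOver D q = true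
    · have ho' : S.isOver D (S.mate q) = false := by rw [S.toCode.isOver_mate, ho]; rfl
      have h1 := of_over S.toCode D ho
      have h2 := of_under_right S.toCode D ho' hm
      rw [S.toCode.mate_mate] at h2
      rw [h2, ← h1]
      group
    · rw [Bool.not_eq_true] at ho
      have ho' : S.isOver D (S.mate q) = true := by rw [S.toCode.isOver_mate, ho]; rfl
      have h1 := of_over S.toCode D ho'
      have h2 := of_under_left S.toCode D ho hq
      rw [h2, ← h1]
      group)
  have hlab : S.toCode.IsLab ∅ Set.univ (S.toCode.isOver D) r := by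
    refine ⟨hr, fun e he => absurd (Set.mem_univ e) he, ?_, fun q hq => absurd hq (by simp)⟩
    intro q _ _ _ ho
    rw [hc, hc]
    exact of_over S.toCode D ho
  have hconst : ∀ e : ZMod (2 * n), (PresentedGroup.of e : S.toCode.knotGroup D) =
      PresentedGroup.of 0 := by
    intro e
    have h1 := h (S.toCode.knotGroup D) r hlab e (Set.mem_univ _) 0 (Set.mem_univ _)
    rw [hc, hc] at h1
    exact h1
  have hrel : ∀ w ∈ S.toCode.wirtinger D,
      FreeGroup.lift (fun _ : ZMod (2 * n) => (Multiplicative.ofAdd (1 : ℤ))) w = 1 := by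
    rintro w ⟨q, rfl⟩
    split_ifs
    · simp
    · simp
    · simp
  let φ : S.toCode.knotGroup D →* Multiplicative ℤ := PresentedGroup.toGroup hrel
  let ψ : Multiplicative ℤ →* S.toCode.knotGroup D :=
    zpowersHom (S.toCode.knotGroup D) (PresentedGroup.of 0)
  have hφ : ∀ e, φ (PresentedGroup.of e) = Multiplicative.ofAdd 1 := fun e =>
    PresentedGroup.toGroup.of hrel
  have hψ : ψ (Multiplicative.ofAdd 1) = PresentedGroup.of 0 := by
    simp [ψ]
  refine ⟨MonoidHom.toMulEquiv φ ψ ?_ ?_⟩
  · refine PresentedGroup.ext fun e => ?_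
    rw [MonoidHom.comp_apply, hφ, hψ, MonoidHom.id_apply, hconst e]
  · refine MonoidHom.ext_mint ?_
    rw [MonoidHom.comp_apply, hψ, hφ, MonoidHom.id_apply]

end Pool.Agent.Helper50.UK.Code
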